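import Mathlib

/-!
# Every element of the compact symplectic group is a product of five involutions

`Sp(n)` is the group of the unitary `2n × 2n` matrices `A` with `Aᵗ J A = J`, and an involution is
an element with `g² = 1`.  Theorem `result`: for `n ≥ 2` every element of `Sp(n)` is a product of
five involutions (for even `n` four suffice, `even_four`).

Proof.  (1) Every element is conjugate in `Sp(n)` to `D(z) = diag(z, z̄)`.  (2) `D(z)` is a product
of two involutions if there is an involutive permutation `σ` with `z_{σ i} = z_i⁻¹`; moreover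
`z_i` can be replaced by `z̄_i`.  (3) If `σ` pairs the indices, except those with `z_i = 1`, then
`D(z) = D(u) D(w)` with `u_i² = z_i z_{σ i}` and `w = z / u`, so that `u_{σ i} = u_i`,
`w_{σ i} = w_i⁻¹`, and `D(z)` is a product of four involutions.  (4) If `n ≥ 3` is odd, choose the
signs of the imaginary parts of `z_1`, `z_2` so that `⟨v, D(z) v⟩` is real for some vector `v ≠ 0`
in the span of the first two basis vectors; the reflection `t` which maps `D(z) v` to `v` is an
involution of `Sp(n)`, and `t D(z)` has the eigenvalue one, so it is a product of four involutions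
by (3).
-/

set_option autoImplicit false

open Matrix

namespace Pool.Agent.Results.MP_8dad81_al.FiveInvolutions

/-- The matrix `J = (0 I; -I 0)`. -/
def J (n : ℕ) : Matrix (Fin n ⊕ Fin n) (Fin n ⊕ Fin n) ℂ := fromBlocks 0 1 (-1) 0

/-- Membership in the compact symplectic group `Sp(n)`: unitary and `Aᵗ J A = J`. -/
def IsSp {n : ℕ} (A : Matrix (Fin n ⊕ Fin n) (Fin n ⊕ Fin n) ℂ) : Prop :=
  Aᴴ * A = 1 ∧ Aᵀ * J n * A = J n

variable {n : ℕ}

abbrev M (n : ℕ) := Matrix (Fin n ⊕ Fin n) (Fin n ⊕ Fin n) ℂ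

theorem isSp_one : IsSp (1 : M n) := by
  constructor <;> simp

theorem IsSp.mul {A B : M n} (hA : IsSp A) (hB : IsSp B) : IsSp (A * B) := by
  constructor
  · rw [conjTranspose_mul]
    calc Bᴴ * Aᴴ * (A * B) = Bᴴ * (Aᴴ * A) * B := by simp only [Matrix.mul_assoc]
      _ = 1 := by rw [hA.1, Matrix.mul_one, hB.1]
  · rw [transpose_mul]
    calc Bᵀ * Aᵀ * J n * (A * B) = Bᵀ * (Aᵀ * J n * A) * B := by simp only [Matrix.mul_assoc]
      _ = J n := by rw [hA.2, hB.2]

theorem IsSp.mul_star {A : M n} (hA : IsSp A) : A * Aᴴ = 1 := mul_eq_one_comm.1 hA.1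

theorem map_star_eq (A : M n) : (Aᴴ)ᵀ = A.map star := by
  ext i j; simp

theorem J_map : (J n).map star = J n := by
  ext i j
  rcases i with i | i <;> rcases j with j | j <;> simp [J, Matrix.one_apply]

theorem map_star_mul {m : Type} [Fintype m] (A B : Matrix m m ℂ) :
    (A * B).map star = A.map star * B.map star := by
  ext i j
  simp only [Matrix.mul_apply, Matrix.map_apply, star_sum, StarMul.star_mul]
  exact Finset.sum_congr rfl fun x _ => mul_comm _ _

theorem J_mul_J : J n * J n = -1 := by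
  rw [J, fromBlocks_multiply, ← fromBlocks_one, fromBlocks_neg]
  simp

/-- the commutation relation -/
theorem IsSp.comm {A : M n} (hA : IsSp A) : A * J n = J n * A.map star := by
  -- conj of hA.2
  have h1 : (Aᵀ * J n * A).map star = J n := by rw [hA.2, J_map]
  have h2 : (Aᵀ).map star * J n * A.map star = J n := by
    rw [map_star_mul, map_star_mul, J_map] at h1
    exact h1
  have h3 : (Aᵀ).map star = Aᴴ := rfl
  rw [h3] at h2
  calc A * J n = A * (Aᴴ * J n * A.map star) := by rw [h2]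
    _ = (A * Aᴴ) * (J n * A.map star) := by simp only [Matrix.mul_assoc]
    _ = J n * A.map star := by rw [hA.mul_star, Matrix.one_mul]

theorem isSp_of_comm {A : M n} (h1 : Aᴴ * A = 1) (h2 : A * J n = J n * A.map star) : IsSp A := by
  refine ⟨h1, ?_⟩
  have h3 : A.map star = (Aᵀ)ᴴ := by ext i j; simp
  have h4 : (Aᵀ)ᴴ * Aᵀ = 1 := by
    have : (A * Aᴴ)ᵀ = 1 := by rw [mul_eq_one_comm.1 h1, transpose_one]
    rw [transpose_mul] at this
    have e : (Aᵀ)ᴴ = (Aᴴ)ᵀ := rfl
    rw [e]
    exact this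
  have h5 : Aᵀ * (Aᵀ)ᴴ = 1 := mul_eq_one_comm.1 h4
  -- J A = conj(A) J
  have h6 : J n * A = A.map star * J n := by
    have := congrArg (fun X => J n * X * J n) h2
    beta_reduce at this
    have e1 : J n * (A * J n) * J n = J n * A * (J n * J n) := by simp only [Matrix.mul_assoc]
    have e2 : J n * (J n * A.map star) * J n = (J n * J n) * (A.map star * J n) := by
      simp only [Matrix.mul_assoc]
    rw [e1, e2, J_mul_J] at this
    simpa using this
  calc Aᵀ * J n * A = Aᵀ * (J n * A) := by rw [Matrix.mul_assoc]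
    _ = (Aᵀ * (Aᵀ)ᴴ) * J n := by rw [h6, h3, Matrix.mul_assoc]
    _ = J n := by rw [h5, Matrix.one_mul]

theorem IsSp.star {A : M n} (hA : IsSp A) : IsSp Aᴴ := by
  apply isSp_of_comm
  · rw [conjTranspose_conjTranspose]; exact hA.mul_star
  · have h := hA.comm
    have h2 := congrArg (fun X => Aᴴ * X * (A.map Star.star)ᴴ) h
    beta_reduce at h2
    have e0 : (A.map Star.star)ᴴ = Aᵀ := by ext i j; simp
    have e1 : A.map Star.star * Aᵀ = 1 := by
      have : (A * Aᴴ)ᵀ = 1 := by rw [hA.mul_star, transpose_one]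
      rw [transpose_mul] at this
      have e : (Aᴴ)ᵀ = A.map Star.star := map_star_eq A
      rw [e] at this
      exact this
    rw [e0] at h2
    have e2 : Aᴴ * (A * J n) * Aᵀ = J n * Aᵀ := by
      rw [← Matrix.mul_assoc Aᴴ A, hA.1, Matrix.one_mul]
    have e3 : Aᴴ * (J n * A.map Star.star) * Aᵀ = Aᴴ * J n := by
      rw [← Matrix.mul_assoc Aᴴ (J n), Matrix.mul_assoc (Aᴴ * J n), e1, Matrix.mul_one]
    rw [e2, e3] at h2
    rw [← h2]
    congr 1
    ext i j; simp

/-- `g` is an involution of `Sp(n)`. -/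
def IsInvolution {n : ℕ} (g : Matrix (Fin n ⊕ Fin n) (Fin n ⊕ Fin n) ℂ) : Prop :=
  IsSp g ∧ g * g = 1

def ProdOf (k : ℕ) (A : M n) : Prop :=
  ∃ l : List (M n), l.length = k ∧ (∀ g ∈ l, IsInvolution g) ∧ l.prod = A

theorem ProdOf.mul {k m : ℕ} {A B : M n} (hA : ProdOf k A) (hB : ProdOf m B) :
    ProdOf (k + m) (A * B) := by
  obtain ⟨l, h1, h2, h3⟩ := hA
  obtain ⟨l', h1', h2', h3'⟩ := hB
  refine ⟨l ++ l', by simp [h1, h1'], ?_, by rw [List.prod_append, h3, h3']⟩
  intro g hg
  rcases List.mem_append.1 hg with h | h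
  · exact h2 g h
  · exact h2' g h

theorem ProdOf.conj {k : ℕ} {A P : M n} (hA : ProdOf k A) (hP : IsSp P) :
    ProdOf k (P * A * Pᴴ) := by
  obtain ⟨l, h1, h2, h3⟩ := hA
  refine ⟨l.map fun g => P * g * Pᴴ, by simp [h1], ?_, ?_⟩
  · intro g hg
    obtain ⟨x, hx, rfl⟩ := List.mem_map.1 hg
    refine ⟨(hP.mul (h2 x hx).1).mul hP.star, ?_⟩
    calc P * x * Pᴴ * (P * x * Pᴴ) = P * x * (Pᴴ * P) * x * Pᴴ := by
          simp only [Matrix.mul_assoc]
      _ = P * (x * x) * Pᴴ := by rw [hP.1, Matrix.mul_one]; simp only [Matrix.mul_assoc]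
      _ = 1 := by rw [(h2 x hx).2, Matrix.mul_one, hP.mul_star]
  · rw [← h3]
    clear h1 h2 h3
    induction l with
    | nil => simp [hP.mul_star]
    | cons a l ih =>
      rw [List.map_cons, List.prod_cons, List.prod_cons, ih]
      calc P * a * Pᴴ * (P * l.prod * Pᴴ) = P * a * (Pᴴ * P) * l.prod * Pᴴ := by
            simp only [Matrix.mul_assoc]
        _ = P * (a * l.prod) * Pᴴ := by rw [hP.1, Matrix.mul_one]; simp only [Matrix.mul_assoc]

theorem isInvolution_one : IsInvolution (1 : M n) := ⟨isSp_one, by simp⟩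

theorem ProdOf.one_succ {k : ℕ} {A : M n} (hA : ProdOf k A) : ProdOf (k + 1) A := by
  have := hA.mul (B := 1) (m := 1) ⟨[1], rfl, by simpa using isInvolution_one, by simp⟩
  simpa using this

/-- The embedding of `U(n)`. -/
def emb (B : Matrix (Fin n) (Fin n) ℂ) : M n := fromBlocks B 0 0 (B.map star)

theorem emb_mul (A B : Matrix (Fin n) (Fin n) ℂ) : emb A * emb B = emb (A * B) := by
  rw [emb, emb, emb, fromBlocks_multiply, map_star_mul]
  simp

theorem emb_one : emb (1 : Matrix (Fin n) (Fin n) ℂ) = 1 := by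
  have : (1 : Matrix (Fin n) (Fin n) ℂ).map star = 1 := by
    ext i j; simp [Matrix.one_apply]
  rw [emb, this, fromBlocks_one]

theorem isSp_emb {B : Matrix (Fin n) (Fin n) ℂ} (hB : Bᴴ * B = 1) : IsSp (emb B) := by
  have hst : (emb B)ᴴ = emb Bᴴ := by
    rw [emb, emb, fromBlocks_conjTranspose]
    congr 1 <;> simp
  apply isSp_of_comm
  · rw [hst, emb_mul, hB, emb_one]
  · have e : (emb B).map star = fromBlocks (B.map star) 0 0 B := by
      rw [emb, fromBlocks_map]
      congr 1 <;> ext i j <;> simp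
    rw [e, emb, J, fromBlocks_multiply, fromBlocks_multiply]
    simp

/-- The diagonal elements. -/
def D (z : Fin n → ℂ) : M n := emb (diagonal z)

theorem unit_star {z : ℂ} (hz : ‖z‖ = 1) : star z * z = 1 := by
  have : star z * z = ((‖z‖ ^ 2 : ℝ) : ℂ) := by
    rw [← Complex.normSq_eq_norm_sq]
    exact Complex.normSq_eq_conj_mul_self.symm
  rw [this, hz]; simp

theorem isSp_D {z : Fin n → ℂ} (hz : ∀ i, ‖z i‖ = 1) : IsSp (D z) := by
  apply isSp_emb
  rw [diagonal_conjTranspose, diagonal_mul_diagonal]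
  have : (fun i => star z i * z i) = fun _ => 1 := by
    ext i
    exact unit_star (hz i)
  rw [this, diagonal_one]

theorem D_mul (z w : Fin n → ℂ) : D z * D w = D fun i => z i * w i := by
  rw [D, D, emb_mul, diagonal_mul_diagonal, D]

/-- Flips. -/
theorem flip (z : Fin n → ℂ) (T : Fin n → Prop) [DecidablePred T] :
    ∃ F : M n, IsSp F ∧ D z = F * D (fun i => if T i then star (z i) else z i) * Fᴴ := by
  classical
  set C : Matrix (Fin n) (Fin n) ℂ := diagonal fun i => if T i then 0 else 1 with hC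
  set S : Matrix (Fin n) (Fin n) ℂ := diagonal fun i => if T i then 1 else 0 with hS
  have hF1 : IsSp (fromBlocks C S (-S) C) := by
    apply isSp_of_comm
    · rw [fromBlocks_conjTranspose, fromBlocks_multiply]
      have e1 : Cᴴ = C := by
        rw [hC, diagonal_conjTranspose]; congr 1; ext i; simp only [Pi.star_apply]; split_ifs <;> simp
      have e2 : Sᴴ = S := by
        rw [hS, diagonal_conjTranspose]; congr 1; ext i; simp only [Pi.star_apply]; split_ifs <;> simp
      rw [conjTranspose_neg, e1, e2]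
      rw [← fromBlocks_one]
      have e3 : C * C + S * S = 1 := by
        rw [hC, hS, diagonal_mul_diagonal, diagonal_mul_diagonal, diagonal_add, ← diagonal_one]
        congr 1; ext i; split_ifs <;> simp
      have e4 : C * S = S * C := by
        rw [hC, hS, diagonal_mul_diagonal, diagonal_mul_diagonal]
        congr 1; ext i; ring
      congr 1
      · simpa using e3
      · simp [e4]
      · simp [e4]
      · rw [add_comm]; simpa using e3
    · have e1 : C.map star = C := by
        rw [hC, diagonal_map (by simp)]; congr 1; ext i; split_ifs <;> simp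
      have e2 : S.map star = S := by
        rw [hS, diagonal_map (by simp)]; congr 1; ext i; split_ifs <;> simp
      have e3 : (-S).map star = -S := by
        ext i j
        show star (-(S i j)) = -(S i j)
        rw [star_neg]
        congr 1
        exact congrFun (congrFun e2 i) j
      rw [fromBlocks_map, e1, e2, e3, J, fromBlocks_multiply, fromBlocks_multiply]
      simp
  refine ⟨_, hF1, ?_⟩
  set F : M n := fromBlocks C S (-S) C with hF
  set z' : Fin n → ℂ := fun i => if T i then star (z i) else z i with hz'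
  have key : D z * F = F * D z' := by
    have d1 : (diagonal z).map star = diagonal (fun i => star (z i)) := by
      rw [diagonal_map (by simp)]
    have d2 : (diagonal z').map star = diagonal (fun i => star (z' i)) := by
      rw [diagonal_map (by simp)]
    rw [D, D, emb, emb, hF, fromBlocks_multiply, fromBlocks_multiply, d1, d2, hC, hS]
    congr 1
    · simp only [diagonal_mul_diagonal, Matrix.zero_mul, Matrix.mul_zero, add_zero]
      refine congrArg diagonal (funext fun i => ?_); simp only [hz']; split_ifs <;> simp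
    · simp only [diagonal_mul_diagonal, Matrix.zero_mul, Matrix.mul_zero, add_zero, zero_add]
      refine congrArg diagonal (funext fun i => ?_); simp only [hz']; split_ifs <;> simp
    · simp only [diagonal_mul_diagonal, Matrix.zero_mul, Matrix.mul_zero, add_zero, zero_add,
        Matrix.mul_neg, Matrix.neg_mul]
      refine congrArg Neg.neg (congrArg diagonal (funext fun i => ?_)); simp only [hz']; split_ifs <;> simp
    · simp only [diagonal_mul_diagonal, Matrix.zero_mul, Matrix.mul_zero, add_zero, zero_add]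
      refine congrArg diagonal (funext fun i => ?_); simp only [hz']; split_ifs <;> simp
  rw [← key, Matrix.mul_assoc, hF1.mul_star, Matrix.mul_one]

variable {n : ℕ}

/-- The quaternionic structure. -/
def jm (v : Fin n ⊕ Fin n → ℂ) : Fin n ⊕ Fin n → ℂ :=
  Sum.elim (fun i => -star (v (Sum.inr i))) (fun i => star (v (Sum.inl i)))

theorem jm_jm (v : Fin n ⊕ Fin n → ℂ) : jm (jm v) = -v := by
  ext a
  rcases a with a | a <;> simp [jm]

theorem jm_smul (c : ℂ) (v : Fin n ⊕ Fin n → ℂ) : jm (c • v) = star c • jm v := by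
  ext a
  rcases a with a | a <;> simp [jm]

theorem dot_jm_jm (x y : Fin n ⊕ Fin n → ℂ) : star (jm x) ⬝ᵥ jm y = star y ⬝ᵥ x := by
  simp only [dotProduct, Fintype.sum_sum_type, Pi.star_apply, jm, Sum.elim_inl, Sum.elim_inr,
    star_star, star_neg]
  rw [add_comm]
  congr 1
  · exact Finset.sum_congr rfl fun i _ => mul_comm _ _
  · exact Finset.sum_congr rfl fun i _ => by ring

theorem dot_jm (x y : Fin n ⊕ Fin n → ℂ) : star x ⬝ᵥ jm y = -(star y ⬝ᵥ jm x) := by
  simp only [dotProduct, Fintype.sum_sum_type, Pi.star_apply, jm, Sum.elim_inl, Sum.elim_inr,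
    neg_add, ← Finset.sum_neg_distrib]
  rw [add_comm]
  congr 1
  · exact Finset.sum_congr rfl fun i _ => by ring
  · exact Finset.sum_congr rfl fun i _ => by ring

theorem jm_eq (v : Fin n ⊕ Fin n → ℂ) : jm v = -(J n *ᵥ star v) := by
  ext a
  rcases a with a | a
  · simp [jm, J, mulVec, dotProduct, Matrix.one_apply]
  · simp [jm, J, mulVec, dotProduct, Matrix.one_apply]

theorem star_mulVec' (A : M n) (v : Fin n ⊕ Fin n → ℂ) :
    star (A *ᵥ v) = A.map star *ᵥ star v := by
  ext a
  simp [mulVec, dotProduct]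

theorem IsSp.jm {A : M n} (hA : IsSp A) (v : Fin n ⊕ Fin n → ℂ) :
    A *ᵥ jm v = FiveInvolutions.jm (A *ᵥ v) := by
  rw [jm_eq, jm_eq, mulVec_neg, mulVec_mulVec, hA.comm, star_mulVec', mulVec_mulVec]

theorem dot_unitary {A : M n} (hA : Aᴴ * A = 1) (x y : Fin n ⊕ Fin n → ℂ) :
    star (A *ᵥ x) ⬝ᵥ (A *ᵥ y) = star x ⬝ᵥ y := by
  rw [star_mulVec, dotProduct_mulVec, vecMul_vecMul, hA, vecMul_one]

theorem dot_self (w : Fin n ⊕ Fin n → ℂ) :
    star w ⬝ᵥ w = ((∑ b, ‖w b‖ ^ 2 : ℝ) : ℂ) := by
  rw [dotProduct]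
  push_cast
  apply Finset.sum_congr rfl
  intro b _
  rw [Pi.star_apply, ← Complex.ofReal_pow, ← Complex.normSq_eq_norm_sq]
  exact Complex.normSq_eq_conj_mul_self.symm

def Frame (A : M n) (k : ℕ) : Prop :=
  ∃ (v : Fin k → (Fin n ⊕ Fin n → ℂ)) (z : Fin k → ℂ),
    (∀ i j, star (v i) ⬝ᵥ v j = if i = j then 1 else 0) ∧
    (∀ i j, star (v i) ⬝ᵥ jm (v j) = 0) ∧ ∀ i, A *ᵥ v i = z i • v i

theorem unit_eig {A : M n} (hA : IsSp A) {v : Fin n ⊕ Fin n → ℂ} {c : ℂ}
    (h : A *ᵥ v = c • v) (hv : star v ⬝ᵥ v = 1) : star c * c = 1 := by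
  have h1 := dot_unitary hA.1 v v
  rw [h, hv, star_smul, smul_dotProduct, dotProduct_smul, hv] at h1
  simpa using h1

theorem dot_eig {A : M n} (hA : IsSp A) {u w : Fin n ⊕ Fin n → ℂ} {c : ℂ}
    (h : A *ᵥ u = c • u) (hc : star c * c = 1) (hw : star u ⬝ᵥ w = 0) :
    star u ⬝ᵥ (A *ᵥ w) = 0 := by
  have h1 := dot_unitary hA.1 u w
  rw [h, hw, star_smul, smul_dotProduct, smul_eq_mul, mul_eq_zero] at h1
  rcases h1 with h1 | h1
  · rw [h1, zero_mul] at hc; exact absurd hc zero_ne_one
  · exact h1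

theorem extend {A : M n} (hA : IsSp A) {k : ℕ} (hk : k < n) (hF : Frame A k) :
    Frame A (k + 1) := by
  obtain ⟨v, z, h1, h2, h3⟩ := hF
  set R : Matrix (Fin k ⊕ Fin k) (Fin n ⊕ Fin n) ℂ := fun a b =>
    Sum.elim (fun i => star (v i b)) (fun i => star (jm (v i) b)) a with hR
  set K : Submodule ℂ (Fin n ⊕ Fin n → ℂ) := LinearMap.ker R.mulVecLin with hK
  have memK : ∀ w, w ∈ K ↔ ∀ i, star (v i) ⬝ᵥ w = 0 ∧ star (jm (v i)) ⬝ᵥ w = 0 := by
    intro w
    rw [hK, LinearMap.mem_ker, Matrix.mulVecLin_apply]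
    constructor
    · intro h i
      exact ⟨congrFun h (Sum.inl i), congrFun h (Sum.inr i)⟩
    · intro h
      ext a
      rcases a with a | a
      · exact (h a).1
      · exact (h a).2
  have hne : K ≠ ⊥ := by
    apply LinearMap.ker_ne_bot_of_finrank_lt
    simp only [Module.finrank_fintype_fun_eq_card, Fintype.card_sum, Fintype.card_fin]
    omega
  haveI : Nontrivial K := Submodule.nontrivial_iff_ne_bot.2 hne
  have hinv : ∀ w ∈ K, A.mulVecLin w ∈ K := by
    intro w hw
    rw [memK] at hw ⊢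
    intro i
    have hvi : star (v i) ⬝ᵥ v i = 1 := by rw [h1, if_pos rfl]
    have hz := unit_eig hA (h3 i) hvi
    refine ⟨dot_eig hA (h3 i) hz (hw i).1, ?_⟩
    have h4 : A *ᵥ jm (v i) = star (z i) • jm (v i) := by
      rw [hA.jm, h3, jm_smul]
    apply dot_eig hA h4 _ (hw i).2
    rw [star_star, mul_comm]; exact hz
  set f : Module.End ℂ K := A.mulVecLin.restrict hinv with hf
  obtain ⟨μ, hμ⟩ := Module.End.exists_eigenvalue f
  obtain ⟨w, hw⟩ := hμ.exists_hasEigenvector
  have hw1 : A *ᵥ (w : Fin n ⊕ Fin n → ℂ) = μ • (w : Fin n ⊕ Fin n → ℂ) := by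
    have := congrArg Subtype.val hw.apply_eq_smul
    simpa [hf] using this
  have hw0 : (w : Fin n ⊕ Fin n → ℂ) ≠ 0 := by
    intro h
    exact hw.2 (Subtype.ext h)
  set s : ℝ := ∑ b, ‖(w : Fin n ⊕ Fin n → ℂ) b‖ ^ 2 with hs
  have hspos : 0 < s := by
    obtain ⟨b, hb⟩ := Function.ne_iff.1 hw0
    apply Finset.sum_pos' (fun b _ => by positivity) ⟨b, Finset.mem_univ b, ?_⟩
    have : 0 < ‖(w : Fin n ⊕ Fin n → ℂ) b‖ := norm_pos_iff.2 hb
    positivity
  set c : ℂ := (((Real.sqrt s)⁻¹ : ℝ) : ℂ) with hc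
  set u : Fin n ⊕ Fin n → ℂ := c • (w : Fin n ⊕ Fin n → ℂ) with hu
  have huK : u ∈ K := K.smul_mem c w.2
  have huu : star u ⬝ᵥ u = 1 := by
    rw [hu, star_smul, smul_dotProduct, dotProduct_smul, dot_self, ← hs, smul_eq_mul, smul_eq_mul]
    have e1 : star c = c := by rw [hc]; exact Complex.conj_ofReal _
    rw [e1, hc, ← Complex.ofReal_mul, ← Complex.ofReal_mul]
    have : (Real.sqrt s)⁻¹ * ((Real.sqrt s)⁻¹ * s) = 1 := by
      rw [← mul_assoc, ← mul_inv, Real.mul_self_sqrt hspos.le, inv_mul_cancel₀ hspos.ne']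
    rw [this]; simp
  have hAu : A *ᵥ u = μ • u := by
    rw [hu, mulVec_smul, hw1, smul_comm]
  have huj : star u ⬝ᵥ jm u = 0 := by
    have := dot_jm u u
    exact self_eq_neg.1 this
  rw [memK] at huK
  refine ⟨Fin.cons u v, Fin.cons μ z, ?_, ?_, ?_⟩
  · intro i j
    refine Fin.cases ?_ (fun i => ?_) i
    · refine Fin.cases ?_ (fun j => ?_) j
      · simpa using huu
      · have : star u ⬝ᵥ v j = 0 := by
          have h5 := (huK j).1
          have h6 : star u ⬝ᵥ v j = star (star (v j) ⬝ᵥ u) := by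
            rw [star_dotProduct]
          rw [h6, h5, star_zero]
        simp only [Fin.cons_zero, Fin.cons_succ]
        rw [this, if_neg (Fin.succ_ne_zero j).symm]
    · refine Fin.cases ?_ (fun j => ?_) j
      · simp only [Fin.cons_zero, Fin.cons_succ]
        rw [(huK i).1, if_neg (Fin.succ_ne_zero i)]
      · simp only [Fin.cons_succ, Fin.succ_inj]
        exact h1 i j
  · intro i j
    have hq : ∀ j, star u ⬝ᵥ jm (v j) = 0 := by
      intro j
      have h5 := (huK j).2
      have h6 : star u ⬝ᵥ jm (v j) = star (star (jm (v j)) ⬝ᵥ u) := by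
        rw [star_dotProduct]
      rw [h6, h5, star_zero]
    refine Fin.cases ?_ (fun i => ?_) i
    · refine Fin.cases ?_ (fun j => ?_) j
      · simpa using huj
      · simp only [Fin.cons_zero, Fin.cons_succ]
        exact hq j
    · refine Fin.cases ?_ (fun j => ?_) j
      · simp only [Fin.cons_zero, Fin.cons_succ]
        rw [dot_jm, hq, neg_zero]
      · simp only [Fin.cons_succ]
        exact h2 i j
  · intro i
    refine Fin.cases ?_ (fun i => ?_) i
    · simpa using hAu
    · simpa using h3 i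

theorem exists_frame {A : M n} (hA : IsSp A) : ∀ k, k ≤ n → Frame A k := by
  intro k
  induction k with
  | zero => intro _; exact ⟨Fin.elim0, Fin.elim0, fun i => i.elim0, fun i => i.elim0, fun i => i.elim0⟩
  | succ k ih => intro hk; exact extend hA (by omega) (ih (by omega))

/-- Diagonalisation in `Sp(n)`. -/
theorem diagonalize {A : M n} (hA : IsSp A) :
    ∃ (P : M n) (z : Fin n → ℂ), IsSp P ∧ (∀ i, ‖z i‖ = 1) ∧ A = P * D z * Pᴴ := by
  obtain ⟨v, z, h1, h2, h3⟩ := exists_frame hA n le_rfl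
  set P : M n := fun a b => Sum.elim (fun i => v i a) (fun i => jm (v i) a) b with hP
  have hPP : Pᴴ * P = 1 := by
    ext a b
    rw [Matrix.mul_apply]
    rcases a with a | a <;> rcases b with b | b
    · have := h1 a b
      rw [dotProduct] at this
      simp only [Matrix.one_apply, Sum.inl.injEq]
      exact this
    · have := h2 a b
      rw [dotProduct] at this
      simp only [Matrix.one_apply, reduceCtorEq, if_false]
      exact this
    · have := h2 b a
      have h4 : star (jm (v a)) ⬝ᵥ v b = 0 := by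
        have h6 : star (jm (v a)) ⬝ᵥ v b = star (star (v b) ⬝ᵥ jm (v a)) := by
          rw [star_dotProduct]
        rw [h6, this, star_zero]
      rw [dotProduct] at h4
      simp only [Matrix.one_apply, reduceCtorEq, if_false]
      exact h4
    · have := dot_jm_jm (v a) (v b)
      rw [h1 b a, dotProduct] at this
      simp only [Matrix.one_apply, Sum.inr.injEq]
      rw [if_congr (Iff.intro Eq.symm Eq.symm) rfl rfl] at this
      exact this
  have hPJ : P * J n = J n * P.map star := by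
    have hcol : ∀ (x : Fin n ⊕ Fin n → ℂ) a, (J n *ᵥ star x) a = -jm x a := by
      intro x a
      rw [jm_eq]; simp
    ext a b
    rcases b with b | b
    · have e1 : (P * J n) a (Sum.inl b) = -jm (v b) a := by
        rw [Matrix.mul_apply, Fintype.sum_sum_type]
        simp [J, hP, Matrix.one_apply]
      have e2 : (J n * P.map star) a (Sum.inl b) = (J n *ᵥ star (v b)) a := by
        rw [Matrix.mul_apply]; rfl
      rw [e1, e2, hcol]
    · have e1 : (P * J n) a (Sum.inr b) = v b a := by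
        rw [Matrix.mul_apply, Fintype.sum_sum_type]
        simp [J, hP, Matrix.one_apply]
      have e2 : (J n * P.map star) a (Sum.inr b) = (J n *ᵥ star (jm (v b))) a := by
        rw [Matrix.mul_apply]; rfl
      rw [e1, e2, hcol, jm_jm]; simp
  have hPS := isSp_of_comm hPP hPJ
  have hAP : A * P = P * D z := by
    ext a b
    rcases b with b | b
    · have e1 : (A * P) a (Sum.inl b) = (A *ᵥ v b) a := by rw [Matrix.mul_apply]; rfl
      have e2 : (P * D z) a (Sum.inl b) = v b a * z b := by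
        rw [Matrix.mul_apply, Fintype.sum_sum_type]
        simp [D, emb, hP, diagonal_apply]
      rw [e1, e2, h3]; simp [mul_comm]
    · have e1 : (A * P) a (Sum.inr b) = (A *ᵥ jm (v b)) a := by rw [Matrix.mul_apply]; rfl
      have e2 : (P * D z) a (Sum.inr b) = jm (v b) a * star (z b) := by
        rw [Matrix.mul_apply, Fintype.sum_sum_type]
        simp [D, emb, hP, diagonal_apply, apply_ite (starRingEnd ℂ)]
      rw [e1, e2, hA.jm, h3, jm_smul]; simp [mul_comm]
  refine ⟨P, z, hPS, ?_, ?_⟩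
  · intro i
    have := unit_eig hA (h3 i) (by rw [h1, if_pos rfl])
    have h4 : ((‖z i‖ ^ 2 : ℝ) : ℂ) = 1 := by
      rw [← Complex.normSq_eq_norm_sq, Complex.normSq_eq_conj_mul_self]
      exact this
    have h5 : ‖z i‖ ^ 2 = 1 := by exact_mod_cast h4
    nlinarith [norm_nonneg (z i)]
  · rw [← hAP, Matrix.mul_assoc, hPS.mul_star, Matrix.mul_one]

variable {n : ℕ}

/-- permutation matrices -/
def pm (σ : Equiv.Perm (Fin n)) : Matrix (Fin n) (Fin n) ℂ := fun i j => if σ i = j then 1 else 0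

theorem diag_pm_sq (σ : Equiv.Perm (Fin n)) (hσ : ∀ i, σ (σ i) = i) (z : Fin n → ℂ)
    (hz : ∀ i, z i * z (σ i) = 1) : (diagonal z * pm σ) * (diagonal z * pm σ) = 1 := by
  ext i k
  have h : ∀ i j, (diagonal z * pm σ) i j = if σ i = j then z i else 0 := by
    intro i j
    rw [diagonal_mul, pm]
    split_ifs <;> simp
  rw [Matrix.mul_apply]
  simp only [h]
  rw [Finset.sum_eq_single (σ i)]
  · rw [if_pos rfl, hσ, Matrix.one_apply]
    by_cases hik : i = k
    · rw [if_pos hik, if_pos hik, hz]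
    · rw [if_neg hik, if_neg hik, mul_zero]
  · intro j _ hj
    rw [if_neg (Ne.symm hj), zero_mul]
  · intro h; exact absurd (Finset.mem_univ _) h

theorem pm_sq (σ : Equiv.Perm (Fin n)) (hσ : ∀ i, σ (σ i) = i) : pm σ * pm σ = 1 := by
  have := diag_pm_sq σ hσ (fun _ => 1) (by simp)
  have h1 : (diagonal fun _ : Fin n => (1 : ℂ)) = 1 := diagonal_one
  rwa [h1, Matrix.one_mul] at this

theorem pm_herm (σ : Equiv.Perm (Fin n)) (hσ : ∀ i, σ (σ i) = i) : (pm σ)ᴴ = pm σ := by
  ext i j
  have h : σ j = i ↔ σ i = j := ⟨fun h => by rw [← h, hσ], fun h => by rw [← h, hσ]⟩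
  simp only [conjTranspose_apply, pm, h]
  split_ifs <;> simp

theorem isSp_pm (σ : Equiv.Perm (Fin n)) (hσ : ∀ i, σ (σ i) = i) : IsSp (emb (pm σ)) := by
  apply isSp_emb
  rw [pm_herm σ hσ, pm_sq σ hσ]

/-- Products of two involutions. -/
theorem two (σ : Equiv.Perm (Fin n)) (hσ : ∀ i, σ (σ i) = i) (z : Fin n → ℂ)
    (hn : ∀ i, ‖z i‖ = 1) (hz : ∀ i, z i * z (σ i) = 1) : ProdOf 2 (D z) := by
  refine ⟨[D z * emb (pm σ), emb (pm σ)], rfl, ?_, ?_⟩
  · intro g hg
    rcases List.mem_cons.1 hg with rfl | hg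
    · refine ⟨(isSp_D hn).mul (isSp_pm σ hσ), ?_⟩
      rw [D, emb_mul, emb_mul, diag_pm_sq σ hσ z hz, emb_one]
    · rw [List.mem_singleton] at hg
      subst hg
      exact ⟨isSp_pm σ hσ, by rw [emb_mul, pm_sq σ hσ, emb_one]⟩
  · rw [List.prod_cons, List.prod_cons, List.prod_nil, Matrix.mul_one, Matrix.mul_assoc, emb_mul,
      pm_sq σ hσ, emb_one, Matrix.mul_one]

/-- Products of four involutions. -/
theorem four (σ : Equiv.Perm (Fin n)) (hσ : ∀ i, σ (σ i) = i) (T : Fin n → Prop)
    (hT : ∀ i, σ i ≠ i → (T (σ i) ↔ ¬ T i)) (z : Fin n → ℂ) (hn : ∀ i, ‖z i‖ = 1)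
    (hfix : ∀ i, σ i = i → z i = 1) : ProdOf 4 (D z) := by
  classical
  have hsq : ∀ x : ℂ, ∃ y : ℂ, y ^ 2 = x := fun x => IsAlgClosed.exists_pow_nat_eq x two_pos
  choose s hs using hsq
  set u : Fin n → ℂ := fun i => s (z i * z (σ i)) with hu
  set w : Fin n → ℂ := fun i => z i / u i with hw
  have husym : ∀ i, u (σ i) = u i := by
    intro i
    simp only [hu, hσ, mul_comm]
  have hu2 : ∀ i, u i ^ 2 = z i * z (σ i) := fun i => hs _
  have hun : ∀ i, ‖u i‖ = 1 := by
    intro i
    have := congrArg norm (hu2 i)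
    rw [norm_pow, norm_mul, hn, hn] at this
    nlinarith [norm_nonneg (u i)]
  have hu0 : ∀ i, u i ≠ 0 := by
    intro i h
    have := hun i
    rw [h, norm_zero] at this
    exact zero_ne_one this
  have hwn : ∀ i, ‖w i‖ = 1 := by
    intro i
    rw [hw, norm_div, hn, hun, div_one]
  have hww : ∀ i, w i * w (σ i) = 1 := by
    intro i
    simp only [hw, husym]
    have := hu0 i
    field_simp
    rw [hu2]
  have hP : D z = D u * D w := by
    rw [D_mul]
    congr 1
    ext i
    simp only [hw]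
    have := hu0 i
    field_simp
  -- `D u` is conjugate to a strongly reversible diagonal element
  obtain ⟨F, hF, hFu⟩ := flip u T
  have h2u : ProdOf 2 (D u) := by
    rw [hFu]
    apply ProdOf.conj _ hF
    apply two σ hσ
    · intro i
      split_ifs
      · rw [norm_star]; exact hun i
      · exact hun i
    · intro i
      rw [husym]
      by_cases hi : σ i = i
      · have h1 := hu2 i
        rw [hi, hfix i hi, mul_one, pow_two] at h1
        rw [hi]
        by_cases hTi : T i
        · rw [if_pos hTi, ← star_mul', h1, star_one]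
        · rw [if_neg hTi, h1]
      · have h1 := hT i hi
        have h2 := unit_star (hun i)
        by_cases hTi : T i
        · rw [if_pos hTi, if_neg (fun h => h1.1 h hTi), h2]
        · rw [if_neg hTi, if_pos (h1.2 hTi), mul_comm, h2]
  have h2w : ProdOf 2 (D w) := two σ hσ w hwn hww
  rw [hP]
  exact h2u.mul h2w

/-- pairings -/
theorem pairing_even (m : ℕ) (h : n = 2 * m) :
    ∃ (σ : Equiv.Perm (Fin n)) (T : Fin n → Prop), (∀ i, σ (σ i) = i) ∧
      (∀ i, (T (σ i) ↔ ¬ T i)) ∧ ∀ i, σ i ≠ i := by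
  have e : Fin n ≃ Fin m × Bool := Fintype.equivOfCardEq (by simp [h, mul_comm])
  refine ⟨(e.trans (Equiv.prodCongr (Equiv.refl _) Equiv.boolNot)).trans e.symm,
    fun i => (e i).2 = true, ?_, ?_, ?_⟩
  · intro i
    simp only [Equiv.trans_apply, Equiv.apply_symm_apply]
    rw [Equiv.symm_apply_eq]
    rcases e i with ⟨x, b⟩
    simp
  · intro i
    simp
  · intro i hi
    have := congrArg (fun x => (e x).2) hi
    simp at this

theorem pairing_odd (m : ℕ) (h : n = 2 * m + 1) (i0 : Fin n) :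
    ∃ (σ : Equiv.Perm (Fin n)) (T : Fin n → Prop), (∀ i, σ (σ i) = i) ∧
      (∀ i, σ i ≠ i → (T (σ i) ↔ ¬ T i)) ∧ ∀ i, σ i = i → i = i0 := by
  classical
  have e0 : Fin n ≃ Option (Fin m × Bool) :=
    Fintype.equivOfCardEq (by simp [h, mul_comm])
  set e : Fin n ≃ Option (Fin m × Bool) := e0.trans (Equiv.swap (e0 i0) none) with he
  have hei0 : e i0 = none := by simp [he]
  set τ : Equiv.Perm (Option (Fin m × Bool)) :=
    Equiv.optionCongr (Equiv.prodCongr (Equiv.refl _) Equiv.boolNot) with hτ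
  refine ⟨(e.trans τ).trans e.symm, fun i => ∃ x, e i = some (x, true), ?_, ?_, ?_⟩
  · intro i
    simp only [Equiv.trans_apply, Equiv.apply_symm_apply]
    rw [Equiv.symm_apply_eq]
    rcases e i with _ | ⟨x, b⟩ <;> simp [hτ]
  · intro i hi
    simp only [Equiv.trans_apply, Equiv.apply_symm_apply]
    rcases hx : e i with _ | ⟨x, b⟩
    · exfalso
      apply hi
      simp only [Equiv.trans_apply, hx]
      rw [Equiv.symm_apply_eq, hx]
      simp [hτ]
    · rcases b <;> simp [hτ]
  · intro i hi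
    simp only [Equiv.trans_apply] at hi
    rw [Equiv.symm_apply_eq] at hi
    rcases hx : e i with _ | ⟨x, b⟩
    · exact e.injective (by rw [hx, hei0])
    · rw [hx] at hi
      simp [hτ] at hi

open scoped ComplexOrder in
/-- Reflections swapping two vectors. -/
theorem exists_reflection (v w : Fin n → ℂ) (h1 : star v ⬝ᵥ v = star w ⬝ᵥ w)
    (h2 : star v ⬝ᵥ w = star w ⬝ᵥ v) :
    ∃ T : Matrix (Fin n) (Fin n) ℂ, Tᴴ = T ∧ T * T = 1 ∧ T *ᵥ w = v := by
  by_cases hvw : v = w
  · exact ⟨1, by simp, by simp, by simp [hvw]⟩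
  set u := w - v with hu
  set r : ℂ := star u ⬝ᵥ u with hr
  have hr0 : r ≠ 0 := by
    intro h0
    have : u = 0 := dotProduct_star_self_eq_zero.1 h0
    exact hvw (by rw [hu, sub_eq_zero] at this; exact this.symm)
  have hrs : star r = r := by
    rw [hr]; exact (star_dotProduct u u).symm
  set T : Matrix (Fin n) (Fin n) ℂ := 1 - (2 / r) • vecMulVec u (star u) with hT
  refine ⟨T, ?_, ?_, ?_⟩
  · rw [hT, conjTranspose_sub, conjTranspose_one, conjTranspose_smul]
    have e1 : star (2 / r) = 2 / r := by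
      rw [star_div₀, hrs]; simp
    have e2 : (vecMulVec u (star u))ᴴ = vecMulVec u (star u) := by
      ext i j; simp [vecMulVec_apply, mul_comm]
    rw [e1, e2]
  · have e3 : vecMulVec u (star u) * vecMulVec u (star u) = r • vecMulVec u (star u) := by
      rw [vecMulVec_mul_vecMulVec, ← hr]
      ext i j
      simp [vecMulVec_apply]
      ring
    rw [hT, Matrix.sub_mul, Matrix.mul_sub, Matrix.mul_sub, Matrix.one_mul, Matrix.one_mul,
      Matrix.mul_one, Matrix.smul_mul, Matrix.mul_smul, e3, smul_smul, smul_smul]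
    have e4 : 2 / r * (2 / r) * r = 2 * (2 / r) := by field_simp
    rw [e4, mul_smul, two_smul]
    abel
  · rw [hT, sub_mulVec, one_mulVec, smul_mulVec]
    have e5 : vecMulVec u (star u) *ᵥ w = (star u ⬝ᵥ w) • u := by
      ext i
      simp only [mulVec, vecMulVec_apply, dotProduct, Pi.smul_apply, smul_eq_mul, Finset.sum_mul]
      exact Finset.sum_congr rfl fun j _ => by ring
    rw [e5, smul_smul]
    have e6 : 2 / r * (star u ⬝ᵥ w) = 1 := by
      have e7 : r = 2 * (star u ⬝ᵥ w) := by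
        rw [hr]
        conv_lhs => rw [hu, dotProduct_sub]
        rw [hu, star_sub, sub_dotProduct, sub_dotProduct]
        linear_combination h1 + h2
      rw [div_mul_eq_mul_div, ← e7, div_self hr0]
    rw [e6, one_smul, hu]
    abel

variable {n : ℕ}

/-- A vector on which the diagonal unitary matrix has a real value. -/
theorem exists_real (z : Fin n → ℂ) (hn : ∀ i, ‖z i‖ = 1) (a b : Fin n) (hab : a ≠ b)
    (ha : 0 ≤ (z a).im) (hb : (z b).im ≤ 0) :
    ∃ v : Fin n → ℂ, v ≠ 0 ∧ star v ⬝ᵥ v = star (diagonal z *ᵥ v) ⬝ᵥ (diagonal z *ᵥ v) ∧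
      star v ⬝ᵥ (diagonal z *ᵥ v) = star (diagonal z *ᵥ v) ⬝ᵥ v := by
  have hiso : ∀ v : Fin n → ℂ,
      star v ⬝ᵥ v = star (diagonal z *ᵥ v) ⬝ᵥ (diagonal z *ᵥ v) := by
    intro v
    simp only [dotProduct, Pi.star_apply, mulVec_diagonal]
    apply Finset.sum_congr rfl
    intro i _
    have := unit_star (hn i)
    rw [star_mul']
    linear_combination (-(star (v i) * v i)) * this
  have hreal : ∀ v : Fin n → ℂ, (star v ⬝ᵥ (diagonal z *ᵥ v)).im = 0 →
      star v ⬝ᵥ (diagonal z *ᵥ v) = star (diagonal z *ᵥ v) ⬝ᵥ v := by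
    intro v h
    have h1 : star (star v ⬝ᵥ (diagonal z *ᵥ v)) = star v ⬝ᵥ (diagonal z *ᵥ v) := by
      apply Complex.ext
      · simp
      · rw [h]
        have : (star (star v ⬝ᵥ (diagonal z *ᵥ v))).im = -(star v ⬝ᵥ (diagonal z *ᵥ v)).im :=
          Complex.conj_im _
        rw [this, h, neg_zero]
    rw [← h1]
    exact (star_dotProduct _ _).symm
  have hsum : ∀ α β : ℝ, ∃ v : Fin n → ℂ, v a = α ∧ v b = β ∧
      (star v ⬝ᵥ (diagonal z *ᵥ v)).im = α ^ 2 * (z a).im + β ^ 2 * (z b).im := by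
    intro α β
    refine ⟨fun i => if i = a then (α : ℂ) else if i = b then (β : ℂ) else 0, by simp,
      by simp [hab.symm], ?_⟩
    simp only [dotProduct, Pi.star_apply, mulVec_diagonal]
    rw [Fintype.sum_eq_add a b hab]
    · simp only [if_true, if_neg hab.symm]
      simp [pow_two]
      ring
    · rintro x ⟨h1, h2⟩
      simp [h1, h2]
  by_cases h0 : (z a).im = 0
  · obtain ⟨v, hva, hvb, hv⟩ := hsum 1 0
    refine ⟨v, ?_, hiso v, hreal v ?_⟩
    · rintro rfl
      simp at hva
    · rw [hv, h0]; ring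
  · obtain ⟨v, hva, hvb, hv⟩ := hsum (Real.sqrt (-(z b).im)) (Real.sqrt (z a).im)
    refine ⟨v, ?_, hiso v, hreal v ?_⟩
    · rintro rfl
      have h1 : 0 < Real.sqrt (z a).im := Real.sqrt_pos.2 (lt_of_le_of_ne ha (Ne.symm h0))
      have h2 : (Real.sqrt (z a).im : ℂ) = 0 := by rw [← hvb]; rfl
      have h3 : Real.sqrt (z a).im = 0 := by exact_mod_cast h2
      exact h1.ne' h3
    · rw [hv, Real.sq_sqrt (by linarith), Real.sq_sqrt ha]; ring

/-- A diagonal element times an involution has the eigenvalue one. -/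
theorem step (z : Fin n → ℂ) (hn : ∀ i, ‖z i‖ = 1) (a b : Fin n) (hab : a ≠ b)
    (ha : 0 ≤ (z a).im) (hb : (z b).im ≤ 0) :
    ∃ (t P : M n) (z' : Fin n → ℂ) (i0 : Fin n), IsInvolution t ∧ IsSp P ∧
      (∀ i, ‖z' i‖ = 1) ∧ z' i0 = 1 ∧ D z = t * (P * D z' * Pᴴ) := by
  obtain ⟨v, hv0, hv1, hv2⟩ := exists_real z hn a b hab ha hb
  obtain ⟨T, hT1, hT2, hT3⟩ := exists_reflection v (diagonal z *ᵥ v) hv1 hv2
  have htS : IsSp (emb T) := isSp_emb (by rw [hT1, hT2])
  have ht2 : emb T * emb T = 1 := by rw [emb_mul, hT2, emb_one]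
  obtain ⟨P, z', hP, hz', hM⟩ := diagonalize (htS.mul (isSp_D hn))
  set V : Fin n ⊕ Fin n → ℂ := Sum.elim v 0 with hV
  have hV0 : V ≠ 0 := by
    intro h
    apply hv0
    ext i
    exact congrFun h (Sum.inl i)
  have hfix : (emb T * D z) *ᵥ V = V := by
    rw [← mulVec_mulVec, D, emb, emb, fromBlocks_mulVec, fromBlocks_mulVec, hV]
    simp only [Sum.elim_comp_inl, Sum.elim_comp_inr, zero_mulVec, mulVec_zero, add_zero, zero_add]
    rw [hT3]
  set U := Pᴴ *ᵥ V with hU
  have hPU : P *ᵥ U = V := by rw [hU, mulVec_mulVec, hP.mul_star, one_mulVec]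
  have hU0 : U ≠ 0 := by
    intro h
    rw [h, mulVec_zero] at hPU
    exact hV0 hPU.symm
  have hDU : D z' *ᵥ U = U := by
    have h1 := congrArg (fun x => Pᴴ *ᵥ x) hfix
    beta_reduce at h1
    rw [hM, mulVec_mulVec] at h1
    have h2 : Pᴴ * (P * D z' * Pᴴ) = D z' * Pᴴ := by
      rw [← Matrix.mul_assoc, ← Matrix.mul_assoc, hP.1, Matrix.one_mul]
    rw [h2, ← mulVec_mulVec] at h1
    exact h1
  obtain ⟨c, hc⟩ := Function.ne_iff.1 hU0
  have hex : ∃ i0, z' i0 = 1 := by
    rw [D, emb, fromBlocks_mulVec] at hDU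
    rcases c with c | c
    · refine ⟨c, ?_⟩
      have h1 := congrFun hDU (Sum.inl c)
      simp only [Sum.elim_inl, zero_mulVec, add_zero, mulVec_diagonal, Function.comp] at h1
      have h2 : (z' c - 1) * U (Sum.inl c) = 0 := by linear_combination h1
      rcases mul_eq_zero.1 h2 with h3 | h3
      · exact sub_eq_zero.1 h3
      · exact absurd h3 hc
    · refine ⟨c, ?_⟩
      have h1 := congrFun hDU (Sum.inr c)
      have h4 : (diagonal z').map star = diagonal (fun i => star (z' i)) := by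
        rw [diagonal_map (by simp)]
      rw [h4] at h1
      simp only [Sum.elim_inr, zero_mulVec, zero_add, mulVec_diagonal, Function.comp] at h1
      have h2 : (star (z' c) - 1) * U (Sum.inr c) = 0 := by linear_combination h1
      rcases mul_eq_zero.1 h2 with h3 | h3
      · have h5 := congrArg star (sub_eq_zero.1 h3)
        simpa using h5
      · exact absurd h3 hc
  obtain ⟨i0, hi0⟩ := hex
  refine ⟨emb T, P, z', i0, ⟨htS, ht2⟩, hP, hz', hi0, ?_⟩
  rw [← hM, ← Matrix.mul_assoc, ht2, Matrix.one_mul]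

theorem even_four {m : ℕ} (h : n = 2 * m) (A : M n) (hA : IsSp A) : ProdOf 4 A := by
  obtain ⟨P, z, hP, hz, rfl⟩ := diagonalize hA
  obtain ⟨σ, T, h1, h2, h3⟩ := pairing_even m h
  exact (four σ h1 T (fun i _ => h2 i) z hz (fun i hi => absurd hi (h3 i))).conj hP

theorem main (hn : 2 ≤ n) (A : M n) (hA : IsSp A) : ProdOf 5 A := by
  classical
  rcases Nat.even_or_odd' n with ⟨m, h | h⟩
  · exact (even_four h A hA).one_succ
  · obtain ⟨P, z, hP, hz, rfl⟩ := diagonalize hA
    apply ProdOf.conj _ hP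
    set a : Fin n := ⟨0, by omega⟩ with ha
    set b : Fin n := ⟨1, by omega⟩ with hb
    have hab : a ≠ b := by simp [ha, hb]
    obtain ⟨F, hF, hFz⟩ := flip z fun i => (i = a ∧ (z a).im < 0) ∨ (i = b ∧ 0 < (z b).im)
    rw [hFz]
    apply ProdOf.conj _ hF
    set z1 : Fin n → ℂ := fun i =>
      if (i = a ∧ (z a).im < 0) ∨ (i = b ∧ 0 < (z b).im) then star (z i) else z i with hz1
    have hz1n : ∀ i, ‖z1 i‖ = 1 := by
      intro i
      simp only [hz1]
      split_ifs
      · rw [norm_star]; exact hz i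
      · exact hz i
    have h0 : 0 ≤ (z1 a).im := by
      simp only [hz1]
      by_cases hneg : (z a).im < 0
      · rw [if_pos (Or.inl ⟨trivial, hneg⟩)]
        have : (star (z a)).im = -(z a).im := Complex.conj_im _
        rw [this]; linarith
      · rw [if_neg (by
          rintro (h | h)
          · exact hneg h.2
          · exact hab h.1)]
        linarith
    have h1 : (z1 b).im ≤ 0 := by
      simp only [hz1]
      by_cases hpos : 0 < (z b).im
      · rw [if_pos (Or.inr ⟨trivial, hpos⟩)]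
        have : (star (z b)).im = -(z b).im := Complex.conj_im _
        rw [this]; linarith
      · rw [if_neg (by
          rintro (h | h)
          · exact hab h.1.symm
          · exact hpos h.2)]
        linarith
    obtain ⟨t, Q, z', i0, ht, hQ, hz', hi0, hD⟩ := step z1 hz1n a b hab h0 h1
    rw [hD]
    obtain ⟨σ, T, s1, s2, s3⟩ := pairing_odd m h i0
    have h4 : ProdOf 4 (D z') := four σ s1 T s2 z' hz' (fun i hi => by rw [s3 i hi, hi0])
    have h5 : ProdOf 1 t := ⟨[t], rfl, by simpa using ht, by simp⟩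
    exact h5.mul (h4.conj hQ)

/-- **Positive answer to Q1.**  For every `n ≥ 2` every element of the compact symplectic group
`Sp(n)` is a product of five involutions of `Sp(n)`. -/
theorem result (n : ℕ) (hn : 2 ≤ n) (A : Matrix (Fin n ⊕ Fin n) (Fin n ⊕ Fin n) ℂ)
    (hA : IsSp A) :
    ∃ g₁ g₂ g₃ g₄ g₅ : Matrix (Fin n ⊕ Fin n) (Fin n ⊕ Fin n) ℂ,
      IsInvolution g₁ ∧ IsInvolution g₂ ∧ IsInvolution g₃ ∧ IsInvolution g₄ ∧ IsInvolution g₅ ∧
        A = g₁ * g₂ * g₃ * g₄ * g₅ := by
  obtain ⟨l, h1, h2, h3⟩ := main hn A hA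
  match l, h1, h2, h3 with
  | [a, b, c, d, e], _, h2, h3 =>
    refine ⟨a, b, c, d, e, h2 a (by simp), h2 b (by simp), h2 c (by simp), h2 d (by simp),
      h2 e (by simp), ?_⟩
    rw [← h3]
    simp [Matrix.mul_assoc]

end Pool.Agent.Results.MP_8dad81_al.FiveInvolutions
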